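import Mathlib

set_option autoImplicit false

namespace Pool.Agent.H.MP_eb5675_co

def w (h a b : Bool) : ℤ := if h then -2 else if a && b then 4 else if a || b then 1 else 0

def fa (f : Bool → Bool) : Bool := f true && f false

def im (a b : Bool) : Bool := Bool.rec true b a

theorem fa_spec {f : Bool → Bool} (h : fa f = true) (b : Bool) : f b = true := by
  unfold fa at h
  cases b <;> simp_all

theorem im_spec {a b : Bool} (h : im a b = true) (ha : a = true) : b = true := by
  subst ha; exact h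

theorem key :
    fa (fun v0 => fa (fun v1 => fa (fun v2 => fa (fun v3 => fa (fun v4 => fa (fun v5 => 
    fa (fun h01 => im (!h01 || (v0 && v1)) (
    fa (fun h02 => im (!h02 || (v0 && v2)) (
    fa (fun h12 => im (!h12 || (v1 && v2)) (
      im (!(h01 && h02 && h12)) (
    fa (fun h03 => im (!h03 || (v0 && v3)) (
    fa (fun h13 => im (!h13 || (v1 && v3)) (
      im (!(h01 && h03 && h13)) (
    fa (fun h23 => im (!h23 || (v2 && v3)) (
      im (!(h02 && h03 && h23)) (
      im (!(h12 && h13 && h23)) (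
    fa (fun h04 => im (!h04 || (v0 && v4)) (
    fa (fun h14 => im (!h14 || (v1 && v4)) (
      im (!(h01 && h04 && h14)) (
    fa (fun h24 => im (!h24 || (v2 && v4)) (
      im (!(h02 && h04 && h24)) (
      im (!(h12 && h14 && h24)) (
    fa (fun h34 => im (!h34 || (v3 && v4)) (
      im (!(h03 && h04 && h34)) (
      im (!(h13 && h14 && h34)) (
      im (!(h23 && h24 && h34)) (
    fa (fun h05 => im (!h05 || (v0 && v5)) (
    fa (fun h15 => im (!h15 || (v1 && v5)) (
      im (!(h01 && h05 && h15)) (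
    fa (fun h25 => im (!h25 || (v2 && v5)) (
      im (!(h02 && h05 && h25)) (
      im (!(h12 && h15 && h25)) (
    fa (fun h35 => im (!h35 || (v3 && v5)) (
      im (!(h03 && h05 && h35)) (
      im (!(h13 && h15 && h35)) (
      im (!(h23 && h25 && h35)) (
    fa (fun h45 => im (!h45 || (v4 && v5)) (
      im (!(h04 && h05 && h45)) (
      im (!(h14 && h15 && h45)) (
      im (!(h24 && h25 && h45)) (
      im (!(h34 && h35 && h45)) (
    decide (0 ≤ w h01 v0 v1 * 5 + (w h02 v0 v2 * 1 + (w h12 v1 v2 * 4 + (w h03 v0 v3 * 1 + (w h13 v1 v3 * 4 + (w h23 v2 v3 * 3 + (w h04 v0 v4 * 1 + (w h14 v1 v4 * 4 + (w h24 v2 v4 * 3 + (w h34 v3 v4 * 3 + (w h05 v0 v5 * 1 + (w h15 v1 v5 * 4 + (w h25 v2 v5 * 3 + (w h35 v3 v5 * 3 + (w h45 v4 v5 * 3 + (0)))))))))))))))))))))))))))))))))))))))))))))))))))))))))))))))))))))))) = true := by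
  decide +kernel

theorem key2 (v : Fin 6 → Bool) (h : Fin 6 → Fin 6 → Bool)
    (hv : ∀ i j, (!h i j || (v i && v j)) = true)
    (ht : ∀ k i j, k ≠ i → k ≠ j → i ≠ j → (!(h k i && h k j && h i j)) = true) :
    0 ≤ w (h 0 1) (v 0) (v 1) * 5 + (w (h 0 2) (v 0) (v 2) * 1 + (w (h 1 2) (v 1) (v 2) * 4 + (w (h 0 3) (v 0) (v 3) * 1 + (w (h 1 3) (v 1) (v 3) * 4 + (w (h 2 3) (v 2) (v 3) * 3 + (w (h 0 4) (v 0) (v 4) * 1 + (w (h 1 4) (v 1) (v 4) * 4 + (w (h 2 4) (v 2) (v 4) * 3 + (w (h 3 4) (v 3) (v 4) * 3 + (w (h 0 5) (v 0) (v 5) * 1 + (w (h 1 5) (v 1) (v 5) * 4 + (w (h 2 5) (v 2) (v 5) * 3 + (w (h 3 5) (v 3) (v 5) * 3 + (w (h 4 5) (v 4) (v 5) * 3 + (0))))))))))))))) := by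
  have k := key
  replace k := fa_spec k (v 0)
  replace k := fa_spec k (v 1)
  replace k := fa_spec k (v 2)
  replace k := fa_spec k (v 3)
  replace k := fa_spec k (v 4)
  replace k := fa_spec k (v 5)
  replace k := im_spec (fa_spec k (h 0 1)) (hv 0 1)
  replace k := im_spec (fa_spec k (h 0 2)) (hv 0 2)
  replace k := im_spec (fa_spec k (h 1 2)) (hv 1 2)
  replace k := im_spec k (ht 0 1 2 (by decide) (by decide) (by decide))
  replace k := im_spec (fa_spec k (h 0 3)) (hv 0 3)
  replace k := im_spec (fa_spec k (h 1 3)) (hv 1 3)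
  replace k := im_spec k (ht 0 1 3 (by decide) (by decide) (by decide))
  replace k := im_spec (fa_spec k (h 2 3)) (hv 2 3)
  replace k := im_spec k (ht 0 2 3 (by decide) (by decide) (by decide))
  replace k := im_spec k (ht 1 2 3 (by decide) (by decide) (by decide))
  replace k := im_spec (fa_spec k (h 0 4)) (hv 0 4)
  replace k := im_spec (fa_spec k (h 1 4)) (hv 1 4)
  replace k := im_spec k (ht 0 1 4 (by decide) (by decide) (by decide))
  replace k := im_spec (fa_spec k (h 2 4)) (hv 2 4)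
  replace k := im_spec k (ht 0 2 4 (by decide) (by decide) (by decide))
  replace k := im_spec k (ht 1 2 4 (by decide) (by decide) (by decide))
  replace k := im_spec (fa_spec k (h 3 4)) (hv 3 4)
  replace k := im_spec k (ht 0 3 4 (by decide) (by decide) (by decide))
  replace k := im_spec k (ht 1 3 4 (by decide) (by decide) (by decide))
  replace k := im_spec k (ht 2 3 4 (by decide) (by decide) (by decide))
  replace k := im_spec (fa_spec k (h 0 5)) (hv 0 5)
  replace k := im_spec (fa_spec k (h 1 5)) (hv 1 5)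
  replace k := im_spec k (ht 0 1 5 (by decide) (by decide) (by decide))
  replace k := im_spec (fa_spec k (h 2 5)) (hv 2 5)
  replace k := im_spec k (ht 0 2 5 (by decide) (by decide) (by decide))
  replace k := im_spec k (ht 1 2 5 (by decide) (by decide) (by decide))
  replace k := im_spec (fa_spec k (h 3 5)) (hv 3 5)
  replace k := im_spec k (ht 0 3 5 (by decide) (by decide) (by decide))
  replace k := im_spec k (ht 1 3 5 (by decide) (by decide) (by decide))
  replace k := im_spec k (ht 2 3 5 (by decide) (by decide) (by decide))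
  replace k := im_spec (fa_spec k (h 4 5)) (hv 4 5)
  replace k := im_spec k (ht 0 4 5 (by decide) (by decide) (by decide))
  replace k := im_spec k (ht 1 4 5 (by decide) (by decide) (by decide))
  replace k := im_spec k (ht 2 4 5 (by decide) (by decide) (by decide))
  replace k := im_spec k (ht 3 4 5 (by decide) (by decide) (by decide))
  exact of_decide_eq_true k

def X (i j : Fin 6) : ℤ :=
  if i.val * j.val = 0 then (if i.val + j.val = 1 then 5 else 1)
  else if (i.val - 1) * (j.val - 1) = 0 then 4 else 3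

theorem X_symm : ∀ i j, X i j = X j i := by decide

def xz : Sym2 (Fin 6) → ℤ := Sym2.lift ⟨X, X_symm⟩

def L : List (Sym2 (Fin 6)) := [s(0, 1), s(0, 2), s(1, 2), s(0, 3), s(1, 3), s(2, 3), s(0, 4), s(1, 4), s(2, 4), s(3, 4), s(0, 5), s(1, 5), s(2, 5), s(3, 5), s(4, 5)]

theorem L_nodup : L.Nodup := by decide

theorem L_mem : ∀ i j : Fin 6, s(i, j) ∈ L ↔ i ≠ j := by decide

theorem coef : ∀ t : Finset (Fin 6), t.card = 3 →
    (if (0 ∈ t ∧ 1 ∈ t) then (1 : ℤ) else 0) ≤ (if (0 ∈ t ∧ 2 ∈ t) then 1 else 0) +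
      (if (0 ∈ t ∧ 3 ∈ t) then 1 else 0) + (if (0 ∈ t ∧ 4 ∈ t) then 1 else 0) +
      (if (0 ∈ t ∧ 5 ∈ t) then 1 else 0) := by decide +kernel

theorem e01 : xz s(0, 1) = 5 := by decide
theorem e02 : xz s(0, 2) = 1 := by decide
theorem e12 : xz s(1, 2) = 4 := by decide
theorem e03 : xz s(0, 3) = 1 := by decide
theorem e13 : xz s(1, 3) = 4 := by decide
theorem e23 : xz s(2, 3) = 3 := by decide
theorem e04 : xz s(0, 4) = 1 := by decide
theorem e14 : xz s(1, 4) = 4 := by decide
theorem e24 : xz s(2, 4) = 3 := by decide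
theorem e34 : xz s(3, 4) = 3 := by decide
theorem e05 : xz s(0, 5) = 1 := by decide
theorem e15 : xz s(1, 5) = 4 := by decide
theorem e25 : xz s(2, 5) = 3 := by decide
theorem e35 : xz s(3, 5) = 3 := by decide
theorem e45 : xz s(4, 5) = 3 := by decide

end Pool.Agent.H.MP_eb5675_co
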